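import Pool.Agent.Lib.MP_dacbbd_gt.Main

set_option autoImplicit false

open Set Topology Filter TopologicalSpace

namespace Pool.Agent.Lib.MP_dacbbd_gt

/-- Addresses whose range is closed give a complete metric. -/
theorem complete_of_addresses {X : Type*} [TopologicalSpace X] [T2Space X] {S : Type*}
    (cur : S → Set X) (D : Set X) (s : D → ℕ → S)
    (hmem : ∀ (x : D) (n : ℕ), (x : X) ∈ cur (s x n))
    (hopen : ∀ (x : D) (n : ℕ), IsOpen (cur (s x n)))
    (huniq : ∀ (x y : D) (n : ℕ), (y : X) ∈ cur (s x n) → s y n = s x n)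
    (hbase : ∀ x : D, ∀ U ∈ 𝓝 (x : X), ∃ n, cur (s x n) ⊆ U)
    (hcl : ∀ f : ℕ → S, (∀ n, ∃ x : D, s x n = f n ∧ s x (n + 1) = f (n + 1)) → ∃ x, s x = f) :
    IsCompletelyMetrizableSpace D := by
  let : TopologicalSpace S := ⊥
  have : DiscreteTopology S := ⟨rfl⟩
  have hind : IsInducing s := by
    rw [isInducing_iff_nhds]
    intro x
    apply le_antisymm
    · rw [← Filter.tendsto_iff_comap, tendsto_pi_nhds]
      intro n
      have h1 : ∀ᶠ y : D in 𝓝 x, s y n = s x n := by
        have h2 : ((↑) : D → X) ⁻¹' cur (s x n) ∈ 𝓝 x :=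
          ((hopen x n).preimage continuous_subtype_val).mem_nhds (hmem x n)
        filter_upwards [h2] with y hy using huniq x y n hy
      exact tendsto_const_nhds.congr' (h1.mono fun y hy => hy.symm)
    · intro U hU
      rw [nhds_subtype_eq_comap] at hU
      obtain ⟨U', hU', hsub⟩ := hU
      obtain ⟨n, hn⟩ := hbase x U' hU'
      refine ⟨(fun f : ℕ → S => f n) ⁻¹' {s x n}, ?_, ?_⟩
      · exact ((isOpen_discrete _).preimage (continuous_apply n)).mem_nhds rfl
      · intro y hy
        have hy' : s y n = s x n := hy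
        apply hsub
        apply hn
        rw [← hy']
        exact hmem y n
  have hemb : IsEmbedding s := hind.isEmbedding
  refine (IsClosedEmbedding.mk hemb ?_).IsCompletelyMetrizableSpace
  rw [← closure_subset_iff_isClosed]
  intro f hf
  refine hcl f fun n => ?_
  have ho : IsOpen ((fun g : ℕ → S => g n) ⁻¹' {f n} ∩ (fun g : ℕ → S => g (n + 1)) ⁻¹' {f (n + 1)}) :=
    ((isOpen_discrete _).preimage (continuous_apply n)).inter
      ((isOpen_discrete _).preimage (continuous_apply (n + 1)))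
  obtain ⟨g, hg, x, rfl⟩ := mem_closure_iff.1 hf _ ho ⟨rfl, rfl⟩
  exact ⟨x, hg.1, hg.2⟩

/-- A dense `Gδ` set that is completely metrizable. -/
theorem dense_complete {X : Type*} [TopologicalSpace X] [CompactSpace X] [T2Space X]
    (O : Finset X → Set (Set X)) (hcount : ∀ F, (O F).Countable)
    (hnet : ∀ F : ℕ → Finset X, Monotone F → ∀ x ∈ closure (⋃ n, (F n : Set X)),
      ∀ U : Set X, IsOpen U → x ∈ U → ∃ n, ∃ N ∈ O (F n), x ∈ N ∧ N ⊆ U) :
    ∃ D : Set X, Dense D ∧ IsGδ D ∧ IsCompletelyMetrizableSpace D := by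
  classical
  have henum : ∀ F, ∃ e : ℕ → Set X, O F ⊆ range e := fun F =>
    Set.countable_iff_exists_subset_range.1 (hcount F)
  choose e he using henum
  let R : ℕ → Set X × Finset X → Set X × Finset X → Prop := fun n s t =>
    closure t.1 ⊆ s.1 ∧ s.2 ⊆ t.2 ∧ (t.1 ∩ (t.2 : Set X)).Nonempty ∧
      ∀ F ⊆ s.2, ∀ j ≤ n, t.1 ⊆ closure (e F j) ∨ Disjoint t.1 (e F j)
  obtain ⟨L, hLd, hLo, hLp, hLR⟩ := levels (X := X) (S := Set X × Finset X) Prod.fst R
    (univ, ∅) rfl (by
      intro n s _ U hU hne hUs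
      have hfin : ((fun p : Finset X × ℕ => e p.1 p.2) ''
          ((s.2.powerset ×ˢ Finset.range (n + 1) : Finset (Finset X × ℕ)) : Set _)).Finite :=
        (Finset.finite_toSet _).image _
      obtain ⟨W, hW, ⟨a, ha⟩, hWU, hdec⟩ := decide_finite _ hfin U hU hne
      obtain ⟨C, hCa, hCc, hCW⟩ := exists_mem_nhds_isClosed_subset (hW.mem_nhds ha)
      have haC : a ∈ interior C := mem_interior_iff_mem_nhds.2 hCa
      have hsub : interior C ⊆ W := interior_subset.trans hCW
      refine ⟨(interior C, insert a s.2), ⟨?_, Finset.subset_insert _ _, ⟨a, haC, by simp⟩, ?_⟩,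
        hsub.trans hWU, isOpen_interior, ⟨a, haC⟩⟩
      · exact (hCc.closure_subset_iff.2 interior_subset).trans (hCW.trans (hWU.trans hUs))
      · intro F hF j hj
        rcases hdec (e F j) ⟨(F, j), by simpa [Nat.lt_succ_iff] using ⟨hF, hj⟩, rfl⟩ with h | h
        · exact Or.inl (hsub.trans h)
        · exact Or.inr (h.mono_left hsub))
  let D : Set X := ⋂ n, ⋃ s ∈ L n, s.1
  have hD : Dense D :=
    dense_iInter_of_isOpen (fun n => isOpen_biUnion fun s hs => hLo n s hs) hLd
  refine ⟨D, hD, IsGδ.iInter fun n => (isOpen_biUnion fun s hs => hLo n s hs).isGδ, ?_⟩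
  have hex : ∀ (x : D) (n : ℕ), ∃ s ∈ L n, (x : X) ∈ s.1 := by
    intro x n
    have := mem_iInter.1 x.2 n
    simpa only [mem_iUnion, exists_prop] using this
  choose s hsL hsx using hex
  have huq : ∀ (y : D) (n : ℕ), ∀ t ∈ L n, (y : X) ∈ t.1 → s y n = t := by
    intro y n t ht hy
    by_contra hne
    exact Set.disjoint_left.1 (hLp n (hsL y n) ht hne) (hsx y n) hy
  have hsR : ∀ (x : D) (n : ℕ), R n (s x n) (s x (n + 1)) := by
    intro x n
    obtain ⟨t, ht, htR⟩ := hLR n _ (hsL x (n + 1))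
    rw [huq x n t ht (htR.1 (subset_closure (hsx x (n + 1))))]
    exact htR
  refine complete_of_addresses Prod.fst D s hsx (fun x n => hLo n _ (hsL x n))
    (fun x y n hy => huq y n _ (hsL x n) hy) ?_ ?_
  · intro x U hU
    have hmono : Monotone fun n => (s x n).2 :=
      monotone_nat_of_le_succ fun n => (hsR x n).2.1
    refine branch (fun n => (s x n).1) (⋃ n, ((s x n).2 : Set X)) (⋃ n, O (s x n).2)
      (fun n => (hsR x n).1) ?_ ?_ ?_ x (hsx x) U hU
    · intro n
      obtain ⟨a, ha1, ha2⟩ := (hsR x n).2.2.1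
      exact ⟨a, (hsR x n).1 (subset_closure ha1), mem_iUnion.2 ⟨n + 1, ha2⟩⟩
    · intro z hz W hW hzW
      obtain ⟨n, N, hN, h1, h2⟩ := hnet _ hmono z hz W hW hzW
      exact ⟨N, mem_iUnion.2 ⟨n, hN⟩, h1, h2⟩
    · intro N hN
      obtain ⟨m, hm⟩ := mem_iUnion.1 hN
      obtain ⟨j, rfl⟩ := he _ hm
      exact ⟨max m j + 1, (hsR x (max m j)).2.2.2 _ (hmono (le_max_left m j)) j (le_max_right m j)⟩
  · intro f hf
    choose x hx1 hx2 using hf
    have hL : ∀ n, f n ∈ L n := fun n => hx1 n ▸ hsL (x n) n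
    have hc : ∀ n, closure (f (n + 1)).1 ⊆ (f n).1 := fun n => by
      have := (hsR (x n) n).1
      rwa [hx1, hx2] at this
    obtain ⟨z, hz⟩ : (⋂ n, closure (f n).1).Nonempty := by
      apply IsCompact.nonempty_iInter_of_sequence_nonempty_isCompact_isClosed
      · exact fun n => (hc n).trans subset_closure
      · exact fun n => ⟨x n, subset_closure (hx1 n ▸ hsx (x n) n)⟩
      · exact isClosed_closure.isCompact
      · exact fun n => isClosed_closure
    have hz' : ∀ n, z ∈ (f n).1 := fun n => hc n (mem_iInter.1 hz (n + 1))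
    exact ⟨⟨z, mem_iInter.2 fun n => mem_biUnion (hL n) (hz' n)⟩,
      funext fun n => huq _ n _ (hL n) (hz' n)⟩

end Pool.Agent.Lib.MP_dacbbd_gt
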