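import Mathlib

set_option autoImplicit false

open Set Topology Filter TopologicalSpace

namespace Pool.Agent.Lib.MP_dacbbd_gt

/-- A subspace whose points carry locally constant addresses giving neighbourhood bases is
pseudometrizable. -/
theorem pseudoMetrizable_of_addresses {X : Type*} [TopologicalSpace X] {S : Type*}
    (cur : S → Set X) (D : Set X) (s : D → ℕ → S)
    (hmem : ∀ (x : D) (n : ℕ), (x : X) ∈ cur (s x n))
    (hopen : ∀ (x : D) (n : ℕ), IsOpen (cur (s x n)))
    (huniq : ∀ (x y : D) (n : ℕ), (y : X) ∈ cur (s x n) → s y n = s x n)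
    (hbase : ∀ x : D, ∀ U ∈ 𝓝 (x : X), ∃ n, cur (s x n) ⊆ U) :
    PseudoMetrizableSpace D := by
  let : UniformSpace S := ⊥
  have : DiscreteTopology S := ⟨rfl⟩
  have : (uniformity S).IsCountablyGenerated := by
    have : uniformity S = 𝓟 SetRel.id := rfl
    rw [this]; infer_instance
  have hind : IsInducing s := by
    rw [isInducing_iff_nhds]
    intro x
    apply le_antisymm
    · rw [← Filter.tendsto_iff_comap, tendsto_pi_nhds]
      intro n
      have h1 : ∀ᶠ y : D in 𝓝 x, s y n = s x n := by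
        have h2 : ((↑) : D → X) ⁻¹' cur (s x n) ∈ 𝓝 x :=
          ((hopen x n).preimage continuous_subtype_val).mem_nhds (hmem x n)
        filter_upwards [h2] with y hy using huniq x y n hy
      exact tendsto_const_nhds.congr' (h1.mono fun y hy => hy.symm)
    · intro U hU
      rw [nhds_subtype_eq_comap] at hU
      obtain ⟨U', hU', hsub⟩ := hU
      obtain ⟨n, hn⟩ := hbase x U' hU'
      refine ⟨(fun f : ℕ → S => f n) ⁻¹' {s x n}, ?_, ?_⟩
      · exact ((isOpen_discrete _).preimage (continuous_apply n)).mem_nhds rfl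
      · intro y hy
        have hy' : s y n = s x n := hy
        apply hsub
        apply hn
        rw [← hy']
        exact hmem y n
  exact hind.pseudoMetrizableSpace

/-- One step of the tree construction: a maximal disjoint family of successors. -/
theorem step {X : Type*} [TopologicalSpace X] {S : Type*} (cur : S → Set X) (R : S → S → Prop)
    (L : Set S) (hL : Dense (⋃ s ∈ L, cur s)) (hopen : ∀ s ∈ L, IsOpen (cur s))
    (hR : ∀ s ∈ L, ∀ U : Set X, IsOpen U → U.Nonempty → U ⊆ cur s →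
      ∃ t, R s t ∧ cur t ⊆ U ∧ IsOpen (cur t) ∧ (cur t).Nonempty) :
    ∃ M : Set S, Dense (⋃ s ∈ M, cur s) ∧ (∀ t ∈ M, IsOpen (cur t) ∧ ∃ s ∈ L, R s t) ∧
      M.PairwiseDisjoint cur := by
  let P : Set (Set S) :=
    {M | (∀ t ∈ M, IsOpen (cur t) ∧ ∃ s ∈ L, R s t) ∧ M.PairwiseDisjoint cur}
  obtain ⟨M, hM⟩ : ∃ M, Maximal (· ∈ P) M := by
    apply zorn_subset
    intro c hcP hc
    refine ⟨⋃₀ c, ⟨?_, ?_⟩, fun s hs => subset_sUnion_of_mem hs⟩
    · rintro t ⟨M, hMc, ht⟩
      exact (hcP hMc).1 t ht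
    · exact (pairwiseDisjoint_sUnion hc.directedOn).2 fun M hMc => (hcP hMc).2
  refine ⟨M, ?_, hM.prop.1, hM.prop.2⟩
  by_contra hnd
  have hne : (closure (⋃ s ∈ M, cur s))ᶜ.Nonempty := by
    rw [nonempty_compl]
    exact fun h => hnd (dense_iff_closure_eq.2 h)
  obtain ⟨z, hz1, hz2⟩ := hL.inter_open_nonempty _ isClosed_closure.isOpen_compl hne
  simp only [mem_iUnion] at hz2
  obtain ⟨s, hs, hzs⟩ := hz2
  obtain ⟨t, hst, htU, hto, htne⟩ := hR s hs ((closure (⋃ s ∈ M, cur s))ᶜ ∩ cur s)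
    (isClosed_closure.isOpen_compl.inter (hopen s hs)) ⟨z, hz1, hzs⟩ inter_subset_right
  have hdisj : ∀ u ∈ M, Disjoint (cur t) (cur u) := by
    intro u hu
    rw [Set.disjoint_left]
    intro w hw hwu
    exact (htU hw).1 (subset_closure (mem_biUnion hu hwu))
  have hins : insert t M ∈ P := by
    refine ⟨?_, ?_⟩
    · rintro u (rfl | hu)
      · exact ⟨hto, s, hs, hst⟩
      · exact hM.prop.1 u hu
    · exact hM.prop.2.insert fun u hu _ => hdisj u hu
  have htM : t ∈ M := hM.le_of_ge hins (subset_insert t M) (mem_insert t M)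
  obtain ⟨w, hw⟩ := htne
  exact Set.disjoint_left.1 (hdisj t htM) hw hw

/-- The whole tree. -/
theorem levels {X : Type*} [TopologicalSpace X] {S : Type*} (cur : S → Set X)
    (R : ℕ → S → S → Prop) (s₀ : S) (h₀ : cur s₀ = univ)
    (hR : ∀ n s, IsOpen (cur s) → ∀ U : Set X, IsOpen U → U.Nonempty → U ⊆ cur s →
      ∃ t, R n s t ∧ cur t ⊆ U ∧ IsOpen (cur t) ∧ (cur t).Nonempty) :
    ∃ L : ℕ → Set S, (∀ n, Dense (⋃ s ∈ L n, cur s)) ∧ (∀ n, ∀ s ∈ L n, IsOpen (cur s)) ∧
      (∀ n, (L n).PairwiseDisjoint cur) ∧ (∀ n, ∀ t ∈ L (n + 1), ∃ s ∈ L n, R n s t) := by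
  let Q : Set S → Prop := fun M =>
    Dense (⋃ s ∈ M, cur s) ∧ (∀ s ∈ M, IsOpen (cur s)) ∧ M.PairwiseDisjoint cur
  have hstep : ∀ (n : ℕ) (M : {M // Q M}), ∃ M' : {M // Q M}, ∀ t ∈ M'.1, ∃ s ∈ M.1, R n s t := by
    intro n M
    obtain ⟨M', h1, h2, h3⟩ := step cur (R n) M.1 M.2.1 M.2.2.1
      (fun s hs => hR n s (M.2.2.1 s hs))
    exact ⟨⟨M', h1, fun t ht => (h2 t ht).1, h3⟩, fun t ht => (h2 t ht).2⟩
  choose nxt hnxt using hstep
  have hQ0 : Q {s₀} := by
    refine ⟨?_, ?_, pairwiseDisjoint_singleton _ _⟩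
    · simp [h₀]
    · rintro s rfl
      rw [h₀]; exact isOpen_univ
  let L : ℕ → {M // Q M} := fun n => Nat.rec ⟨{s₀}, hQ0⟩ (fun n M => nxt n M) n
  exact ⟨fun n => (L n).1, fun n => (L n).2.1, fun n => (L n).2.2.1, fun n => (L n).2.2.2,
    fun n => hnxt n (L n)⟩

/-- A nonempty open set can be shrunk so as to decide finitely many sets. -/
theorem decide_finite {X : Type*} [TopologicalSpace X] (𝒩 : Set (Set X)) (h𝒩 : 𝒩.Finite) :
    ∀ U : Set X, IsOpen U → U.Nonempty → ∃ W : Set X, IsOpen W ∧ W.Nonempty ∧ W ⊆ U ∧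
      ∀ N ∈ 𝒩, W ⊆ closure N ∨ Disjoint W N := by
  induction 𝒩, h𝒩 using Set.Finite.induction_on with
  | empty => exact fun U hU hne => ⟨U, hU, hne, Subset.rfl, by simp⟩
  | @insert N 𝒩 _ _ ih =>
    intro U hU hne
    obtain ⟨W, hW, hWne, hWU, hdec⟩ := ih U hU hne
    by_cases hc : W ⊆ closure N
    · refine ⟨W, hW, hWne, hWU, ?_⟩
      rintro N' (rfl | hN')
      · exact Or.inl hc
      · exact hdec N' hN'
    · refine ⟨W \ closure N, hW.sdiff isClosed_closure, nonempty_of_not_subset hc,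
        sdiff_subset.trans hWU, ?_⟩
      rintro N' (rfl | hN')
      · exact Or.inr (disjoint_sdiff_left.mono_right subset_closure)
      · rcases hdec N' hN' with h | h
        · exact Or.inl (sdiff_subset.trans h)
        · exact Or.inr (h.mono_left sdiff_subset)

/-- Along a branch the open sets shrink to one point. -/
theorem branch {X : Type*} [TopologicalSpace X] [CompactSpace X] [T2Space X]
    (V : ℕ → Set X) (A : Set X) (𝒪 : Set (Set X))
    (hcl : ∀ n, closure (V (n + 1)) ⊆ V n)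
    (hA : ∀ n, (V n ∩ A).Nonempty)
    (hnet : ∀ x ∈ closure A, ∀ U : Set X, IsOpen U → x ∈ U → ∃ N ∈ 𝒪, x ∈ N ∧ N ⊆ U)
    (hdec : ∀ N ∈ 𝒪, ∃ n, V n ⊆ closure N ∨ Disjoint (V n) N)
    (x : X) (hx : ∀ n, x ∈ V n) (U : Set X) (hU : U ∈ 𝓝 x) : ∃ n, V n ⊆ U := by
  have hanti : ∀ n, closure (V (n + 1)) ⊆ closure (V n) := fun n => (hcl n).trans subset_closure
  obtain ⟨z, hz⟩ : (⋂ n, closure (V n) ∩ closure A).Nonempty := by
    apply IsCompact.nonempty_iInter_of_sequence_nonempty_isCompact_isClosed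
    · exact fun n => inter_subset_inter_left _ (hanti n)
    · intro n
      obtain ⟨a, ha1, ha2⟩ := hA n
      exact ⟨a, subset_closure ha1, subset_closure ha2⟩
    · exact (isClosed_closure.inter isClosed_closure).isCompact
    · exact fun n => isClosed_closure.inter isClosed_closure
  rw [mem_iInter] at hz
  have hzV : ∀ n, z ∈ V n := fun n => hcl n (hz (n + 1)).1
  have huniq : ∀ y, (∀ n, y ∈ V n) → y = z := by
    intro y hy
    by_contra hne
    obtain ⟨W, hWz, hWc, hWy⟩ : ∃ W ∈ 𝓝 z, IsClosed W ∧ W ⊆ {y}ᶜ :=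
      exists_mem_nhds_isClosed_subset (isOpen_compl_singleton.mem_nhds (Ne.symm hne))
    obtain ⟨N, hN, hzN, hNW⟩ := hnet z (hz 0).2 (interior W) isOpen_interior
      (mem_interior_iff_mem_nhds.2 hWz)
    obtain ⟨n, h | h⟩ := hdec N hN
    · have : y ∈ W := hWc.closure_subset_iff.2 (hNW.trans interior_subset) (h (hy n))
      exact hWy this rfl
    · exact Set.disjoint_left.1 h (hzV n) hzN
  by_contra hcon
  push Not at hcon
  obtain ⟨w, hw⟩ : (⋂ n, closure (V n) ∩ (interior U)ᶜ).Nonempty := by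
    apply IsCompact.nonempty_iInter_of_sequence_nonempty_isCompact_isClosed
    · exact fun n => inter_subset_inter_left _ (hanti n)
    · intro n
      obtain ⟨a, ha1, ha2⟩ := not_subset.1 (hcon n)
      exact ⟨a, subset_closure ha1, fun h => ha2 (interior_subset h)⟩
    · exact (isClosed_closure.inter isOpen_interior.isClosed_compl).isCompact
    · exact fun n => isClosed_closure.inter isOpen_interior.isClosed_compl
  rw [mem_iInter] at hw
  have h1 : w = z := huniq w fun n => hcl n (hw (n + 1)).1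
  have h2 : x = z := huniq x hx
  exact (hw 0).2 (by rw [h1, ← h2]; exact mem_interior_iff_mem_nhds.2 hU)

/-- The theorem, under the weaker hypothesis that only uses finite sets and countable unions. -/
theorem dense_metrizable {X : Type*} [TopologicalSpace X] [CompactSpace X] [T2Space X]
    (O : Finset X → Set (Set X)) (hcount : ∀ F, (O F).Countable)
    (hnet : ∀ F : ℕ → Finset X, Monotone F → ∀ x ∈ closure (⋃ n, (F n : Set X)),
      ∀ U : Set X, IsOpen U → x ∈ U → ∃ n, ∃ N ∈ O (F n), x ∈ N ∧ N ⊆ U) :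
    ∃ D : Set X, Dense D ∧ MetrizableSpace D := by
  classical
  have henum : ∀ F, ∃ e : ℕ → Set X, O F ⊆ range e := fun F =>
    Set.countable_iff_exists_subset_range.1 (hcount F)
  choose e he using henum
  let R : ℕ → Set X × Finset X → Set X × Finset X → Prop := fun n s t =>
    closure t.1 ⊆ s.1 ∧ s.2 ⊆ t.2 ∧ (t.1 ∩ (t.2 : Set X)).Nonempty ∧
      ∀ F ⊆ s.2, ∀ j ≤ n, t.1 ⊆ closure (e F j) ∨ Disjoint t.1 (e F j)
  obtain ⟨L, hLd, hLo, hLp, hLR⟩ := levels (X := X) (S := Set X × Finset X) Prod.fst R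
    (univ, ∅) rfl (by
      intro n s _ U hU hne hUs
      have hfin : ((fun p : Finset X × ℕ => e p.1 p.2) ''
          ((s.2.powerset ×ˢ Finset.range (n + 1) : Finset (Finset X × ℕ)) : Set _)).Finite :=
        (Finset.finite_toSet _).image _
      obtain ⟨W, hW, ⟨a, ha⟩, hWU, hdec⟩ := decide_finite _ hfin U hU hne
      obtain ⟨C, hCa, hCc, hCW⟩ := exists_mem_nhds_isClosed_subset (hW.mem_nhds ha)
      have haC : a ∈ interior C := mem_interior_iff_mem_nhds.2 hCa
      have hsub : interior C ⊆ W := interior_subset.trans hCW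
      refine ⟨(interior C, insert a s.2), ⟨?_, Finset.subset_insert _ _, ⟨a, haC, by simp⟩, ?_⟩,
        hsub.trans hWU, isOpen_interior, ⟨a, haC⟩⟩
      · exact (hCc.closure_subset_iff.2 interior_subset).trans (hCW.trans (hWU.trans hUs))
      · intro F hF j hj
        rcases hdec (e F j) ⟨(F, j), by simpa [Nat.lt_succ_iff] using ⟨hF, hj⟩, rfl⟩ with h | h
        · exact Or.inl (hsub.trans h)
        · exact Or.inr (h.mono_left hsub))
  let D : Set X := ⋂ n, ⋃ s ∈ L n, s.1
  have hD : Dense D :=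
    dense_iInter_of_isOpen (fun n => isOpen_biUnion fun s hs => hLo n s hs) hLd
  refine ⟨D, hD, ?_⟩
  have hex : ∀ (x : D) (n : ℕ), ∃ s ∈ L n, (x : X) ∈ s.1 := by
    intro x n
    have := mem_iInter.1 x.2 n
    simpa only [mem_iUnion, exists_prop] using this
  choose s hsL hsx using hex
  have huq : ∀ (y : D) (n : ℕ), ∀ t ∈ L n, (y : X) ∈ t.1 → s y n = t := by
    intro y n t ht hy
    by_contra hne
    exact Set.disjoint_left.1 (hLp n (hsL y n) ht hne) (hsx y n) hy
  have hsR : ∀ (x : D) (n : ℕ), R n (s x n) (s x (n + 1)) := by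
    intro x n
    obtain ⟨t, ht, htR⟩ := hLR n _ (hsL x (n + 1))
    rw [huq x n t ht (htR.1 (subset_closure (hsx x (n + 1))))]
    exact htR
  have : PseudoMetrizableSpace D := by
    refine pseudoMetrizable_of_addresses Prod.fst D s hsx (fun x n => hLo n _ (hsL x n))
      (fun x y n hy => huq y n _ (hsL x n) hy) ?_
    intro x U hU
    have hmono : Monotone fun n => (s x n).2 :=
      monotone_nat_of_le_succ fun n => (hsR x n).2.1
    refine branch (fun n => (s x n).1) (⋃ n, ((s x n).2 : Set X)) (⋃ n, O (s x n).2)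
      (fun n => (hsR x n).1) ?_ ?_ ?_ x (hsx x) U hU
    · intro n
      obtain ⟨a, ha1, ha2⟩ := (hsR x n).2.2.1
      exact ⟨a, (hsR x n).1 (subset_closure ha1), mem_iUnion.2 ⟨n + 1, ha2⟩⟩
    · intro z hz W hW hzW
      obtain ⟨n, N, hN, h1, h2⟩ := hnet _ hmono z hz W hW hzW
      exact ⟨N, mem_iUnion.2 ⟨n, hN⟩, h1, h2⟩
    · intro N hN
      obtain ⟨m, hm⟩ := mem_iUnion.1 hN
      obtain ⟨j, rfl⟩ := he _ hm
      exact ⟨max m j + 1, (hsR x (max m j)).2.2.2 _ (hmono (le_max_left m j)) j (le_max_right m j)⟩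
  infer_instance

end Pool.Agent.Lib.MP_dacbbd_gt
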